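import Pool.Agent.W2helper82.OA.Stm

/-!
# Project OA, piece P12: the four sides of the square
-/

set_option autoImplicit false

namespace Pool.Agent.W2helper82.OA.P12

open H974 H12S Finset H984P H984N
open Pool.Agent.Y989.FR (Awy AE)
open Pool.Agent.W2helper82.OA

theorem mem_bdB_iff (u v : Vtx) (r : ℕ) : u ∈ bdB v r ↔ sd u v = r := by
  unfold sd
  show (|u.1 - v.1| ≤ (r : ℤ) ∧ |u.2 - v.2| ≤ (r : ℤ) ∧
    (|u.1 - v.1| = (r : ℤ) ∨ |u.2 - v.2| = (r : ℤ))) ↔ _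
  omega

/-- symmetries of the square `[0,s]²` -/
structure Sy (s : ℕ) (γ : LSym) : Prop where
  sd : ∀ u w, sd (γ.ψ u) (γ.ψ w) = sd u w
  inr : ∀ (a : ℤ) (u : Vtx), inR a (s - a) a (s - a) (γ.ψ u) ↔ inR a (s - a) a (s - a) u
  side : ∀ u : Vtx, (u.1 = 0 ∨ u.1 = s ∨ u.2 = 0 ∨ u.2 = s) →
    ((γ.ψ u).1 = 0 ∨ (γ.ψ u).1 = s ∨ (γ.ψ u).2 = 0 ∨ (γ.ψ u).2 = s)
  re : ∀ a : ℤ, γ.mp (RE a (s - a) a (s - a)) = RE a (s - a) a (s - a)
  blk : ∀ (v : Vtx) (r : ℕ), γ.mp (blk v r) = blk (γ.ψ v) r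
  ctr : ∀ v ∈ CtrS s, γ.ψ v ∈ CtrS s

theorem mem_CtrS {s : ℕ} {v : Vtx} : v ∈ CtrS s ↔ ((0 ≤ v.1 ∧ v.1 ≤ s) ∧ (0 ≤ v.2 ∧ v.2 ≤ s)) ∧
    8 * |2 * v.1 - s| ≤ s ∧ 8 * |2 * v.2 - s| ≤ s := by
  unfold CtrS BX
  rw [Finset.mem_filter, Finset.mem_product, Finset.mem_Icc, Finset.mem_Icc]

theorem sy_rfx (s : ℕ) : Sy s (rfx s) where
  sd u w := by
    obtain ⟨a, b⟩ := u
    obtain ⟨c, d⟩ := w
    unfold sd
    simp only [rfx_ψ]
    congr 1
    rw [abs_sub_comm]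
    congr 1
    ring
  inr a u := by
    obtain ⟨x, y⟩ := u
    unfold inR
    simp only [rfx_ψ]
    omega
  side u h := by
    obtain ⟨x, y⟩ := u
    simp only [rfx_ψ] at h ⊢
    omega
  re a := by
    rw [rfx_RE]
    congr 1
    ring
  blk v r := by
    obtain ⟨x, y⟩ := v
    unfold blk
    rw [rfx_RE]
    simp only [rfx_ψ]
    congr 1 <;> ring
  ctr v hv := by
    obtain ⟨x, y⟩ := v
    rw [mem_CtrS] at hv ⊢
    simp only [rfx_ψ] at hv ⊢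
    have e : |2 * ((s : ℤ) - x) - s| = |2 * x - s| := by
      rw [abs_sub_comm]
      congr 1
      ring
    rw [e]
    omega

theorem sy_rfy (s : ℕ) : Sy s (rfy s) where
  sd u w := by
    obtain ⟨a, b⟩ := u
    obtain ⟨c, d⟩ := w
    unfold sd
    simp only [rfy_ψ]
    congr 1
    rw [abs_sub_comm]
    congr 1
    ring
  inr a u := by
    obtain ⟨x, y⟩ := u
    unfold inR
    simp only [rfy_ψ]
    omega
  side u h := by
    obtain ⟨x, y⟩ := u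
    simp only [rfy_ψ] at h ⊢
    omega
  re a := by
    rw [rfy_RE]
    congr 1
    ring
  blk v r := by
    obtain ⟨x, y⟩ := v
    unfold blk
    rw [rfy_RE]
    simp only [rfy_ψ]
    congr 1 <;> ring
  ctr v hv := by
    obtain ⟨x, y⟩ := v
    rw [mem_CtrS] at hv ⊢
    simp only [rfy_ψ] at hv ⊢
    have e : |2 * ((s : ℤ) - y) - s| = |2 * y - s| := by
      rw [abs_sub_comm]
      congr 1
      ring
    rw [e]
    omega

theorem sy_tps (s : ℕ) : Sy s tps where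
  sd u w := by
    obtain ⟨a, b⟩ := u
    obtain ⟨c, d⟩ := w
    unfold sd
    simp only [tps_ψ]
    exact max_comm _ _
  inr a u := by
    obtain ⟨x, y⟩ := u
    unfold inR
    simp only [tps_ψ]
    omega
  side u h := by
    obtain ⟨x, y⟩ := u
    simp only [tps_ψ] at h ⊢
    omega
  re a := by
    rw [tps_RE]
  blk v r := by
    obtain ⟨x, y⟩ := v
    unfold blk
    rw [tps_RE]
    simp only [tps_ψ]
  ctr v hv := by
    obtain ⟨x, y⟩ := v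
    rw [mem_CtrS] at hv ⊢
    simp only [tps_ψ] at hv ⊢
    omega

variable {s : ℕ} {γ : LSym}

theorem Sy.re0 (hγ : Sy s γ) : γ.mp (RE 0 s 0 s) = RE 0 s 0 s := by
  have h := hγ.re 0
  simpa using h

theorem reach_im (γ : LSym) {A B : Set Edg} {u v : Vtx} (h : Reach A u v)
    (hAB : ∀ e ∈ A, γ.φ e ∈ B) : Reach B (γ.ψ u) (γ.ψ v) :=
  (γ.reach h).mono (by
    rintro _ ⟨e, he, rfl⟩
    exact hAB e he)

theorem reach_fin (γ : LSym) {F S T : Finset Edg} (hST : γ.mp S = T) {u v : Vtx} :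
    Reach (↑(γ.mp F) ∩ ↑T) (γ.ψ u) (γ.ψ v) ↔ Reach (↑F ∩ ↑S) u v := by
  rw [← hST, LSym.coe_mp, LSym.coe_mp, ← Set.image_inter γ.φ.injective, LSym.reach_iff]

theorem clu_im (hγ : Sy s γ) (v : Vtx) (F : Finset Edg) (u : Vtx) :
    γ.ψ u ∈ Clu s (γ.ψ v) (γ.mp F) ↔ u ∈ Clu s v F :=
  reach_fin γ hγ.re0

theorem kh_im (hγ : Sy s γ) (v : Vtx) (F : Finset Edg) (u : Vtx) :
    γ.ψ u ∈ KH s (γ.ψ v) (γ.mp F) ↔ u ∈ KH s v F :=
  reach_fin γ (hγ.blk v _)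

theorem end_im (γ : LSym) (P : Vtx → Prop) (e : Edg) :
    (P (src (γ.φ e)) ∧ P (tgt (γ.φ e))) ↔ (P (γ.ψ (src e)) ∧ P (γ.ψ (tgt e))) := by
  rcases γ.compat e with ⟨h1, h2⟩ | ⟨h1, h2⟩
  · rw [h1, h2]
  · rw [h1, h2]
    exact and_comm

theorem el_im (hγ : Sy s γ) {v : Vtx} {W W' : Set Vtx} (hW : ∀ u, γ.ψ u ∈ W' ↔ u ∈ W)
    (h : EL s v W) : EL s (γ.ψ v) W' := by
  obtain ⟨h1, ⟨p, hp1, hp2, q, hq1, hq2⟩, z, hz1, hz2⟩ := h
  refine ⟨(hW v).2 h1, ⟨γ.ψ p, ?_, fun h => hp2 ((hW p).1 h), γ.ψ q, ?_, ?_⟩, γ.ψ z, (hW z).2 hz1,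
    hγ.side z hz2⟩
  · exact (γ.adj hp1).mono (Set.subset_univ _)
  · have := hγ.inr 0 q
    simp only [sub_zero] at this
    exact fun h => hq1 (this.1 h)
  · refine reach_im γ hq2 fun e he => ?_
    have := (end_im γ (fun u => u ∉ W') e).2
    exact this ⟨fun h => he.1 ((hW _).1 h), fun h => he.2 ((hW _).1 h)⟩

/-- the thick path leaves `[2g, s-2g]²` at a vertex with the property `T` -/
def Exs (g s M B : ℕ) (T : Vtx → Prop) (v : Vtx) (F : Finset Edg) : Prop :=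
  EL s v (Clu s v F) ∧ (∃ w ∈ bdB v (128 * s), w ∈ KH s v F) ∧
  ∃ x ∈ bdB v 2, ∃ w : Vtx, inR (2 * g : ℕ) (s - (2 * g : ℕ)) (2 * g : ℕ) (s - (2 * g : ℕ)) w ∧ T w ∧
    Reach {e | e ∈ RE (2 * g : ℕ) (s - (2 * g : ℕ)) (2 * g : ℕ) (s - (2 * g : ℕ)) ∧ e ∉ blk v 2 ∧
      ∀ d ∈ KH s v F, Awy M B (2 * s) v d (src e) ∧ Awy M B (2 * s) v d (tgt e)} x w

theorem mem_im (γ : LSym) {S T : Finset Edg} (h : γ.mp S = T) (e : Edg) : γ.φ e ∈ T ↔ e ∈ S := by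
  rw [← h, LSym.mem_mp, Equiv.symm_apply_apply]

theorem awy_im (hγ : Sy s γ) (M B k : ℕ) (v c x : Vtx) :
    Awy M B k (γ.ψ v) (γ.ψ c) (γ.ψ x) ↔ Awy M B k v c x := by
  unfold Awy
  rw [hγ.sd, hγ.sd]

theorem exs_im (hγ : Sy s γ) {g M B : ℕ} {T T' : Vtx → Prop} (hT : ∀ w, T w → T' (γ.ψ w))
    {v : Vtx} {F : Finset Edg} (h : Exs g s M B T v F) : Exs g s M B T' (γ.ψ v) (γ.mp F) := by
  obtain ⟨h1, ⟨w, hw1, hw2⟩, x, hx, y, hy1, hy2, hy3⟩ := h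
  refine ⟨el_im hγ (clu_im hγ v F) h1, ⟨γ.ψ w, ?_, (kh_im hγ v F w).2 hw2⟩, γ.ψ x, ?_, γ.ψ y,
    (hγ.inr _ y).2 hy1, hT y hy2, ?_⟩
  · rw [mem_bdB_iff] at hw1 ⊢
    rw [hγ.sd, hw1]
  · rw [mem_bdB_iff] at hx ⊢
    rw [hγ.sd, hx]
  · refine reach_im γ hy3 fun e he => ?_
    obtain ⟨e1, e2, e3⟩ := he
    refine ⟨(mem_im γ (hγ.re _) e).2 e1, fun h => e2 ((mem_im γ (hγ.blk v 2) e).1 h),
      fun d hd => ?_⟩
    obtain ⟨d', rfl⟩ := γ.ψ.surjective d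
    have e4 := e3 d' ((kh_im hγ v F d').1 hd)
    refine (end_im γ (fun u => Awy M B (2 * s) (γ.ψ v) (γ.ψ d') u) e).2 ?_
    rw [awy_im hγ, awy_im hγ]
    exact e4

theorem exl_of {g M B : ℕ} {v : Vtx} {F : Finset Edg}
    (h : Exs g s M B (fun w => w.1 = (2 * g : ℕ)) v F) : ExL g s M B v F := by
  obtain ⟨h1, h2, x, hx, y, hy1, hy2, hy3⟩ := h
  refine ⟨h1, h2, x, hx, y.2, ?_, ?_, ?_⟩
  · have := hy1.2.1
    push_cast at this
    exact this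
  · have := hy1.2.2
    push_cast at this
    exact this
  · have e : y = ((2 * g : ℤ), y.2) := by
      refine Prod.ext ?_ rfl
      have : y.1 = ((2 * g : ℕ) : ℤ) := hy2
      push_cast at this
      exact this
    rw [e] at hy3
    push_cast at hy3
    exact hy3

/-- the sum over the centre is invariant -/
theorem sum_im (hγ : Sy s γ) (R : ℕ) (A : Vtx → Finset Edg → Prop) :
    ∑ v ∈ CtrS s, Pr ph (blk v R) (fun F => A (γ.ψ v) (γ.mp F)) =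
      ∑ v ∈ CtrS s, Pr ph (blk v R) (A v) := by
  have him : (CtrS s).image γ.ψ = CtrS s := by
    refine Finset.eq_of_subset_of_card_le ?_ ?_
    · intro u hu
      obtain ⟨v, hv, rfl⟩ := Finset.mem_image.1 hu
      exact hγ.ctr v hv
    · rw [Finset.card_image_of_injective _ γ.ψ.injective]
  have h1 : ∑ v ∈ CtrS s, Pr ph (blk v R) (A v) =
      ∑ v ∈ (CtrS s).image γ.ψ, Pr ph (blk v R) (A v) := by rw [him]
  rw [h1, Finset.sum_image (fun a _ b _ h => γ.ψ.injective h)]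
  refine Finset.sum_congr rfl fun v _ => ?_
  rw [← hγ.blk, LSym.pr]

theorem four {g M B : ℕ} (hg : 0 < g) (hs : 64 * g ≤ s) {v : Vtx} (hv : v ∈ CtrS s)
    {F : Finset Edg} (h : BaseEv M B s v F) :
    Exs g s M B (fun w => w.1 = (2 * g : ℕ)) v F ∨
    Exs g s M B (fun w => w.1 = s - (2 * g : ℕ)) v F ∨
    Exs g s M B (fun w => w.2 = (2 * g : ℕ)) v F ∨
    Exs g s M B (fun w => w.2 = s - (2 * g : ℕ)) v F := by
  obtain ⟨h1, h2, x, hx, y, hy, hr⟩ := h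
  rw [mem_CtrS] at hv
  obtain ⟨-, hv1, hv2⟩ := hv
  have a1 := abs_le.1 (show |2 * v.1 - (s : ℤ)| ≤ s / 8 by omega)
  have a2 := abs_le.1 (show |2 * v.2 - (s : ℤ)| ≤ s / 8 by omega)
  have hx' : inR (2 * g : ℕ) (s - (2 * g : ℕ)) (2 * g : ℕ) (s - (2 * g : ℕ)) x := by
    obtain ⟨b1, b2, -⟩ := hx
    have c1 := abs_le.1 b1
    have c2 := abs_le.1 b2
    unfold inR
    push_cast at c1 c2 ⊢
    omega
  have hy' : y.1 ≤ (2 * g : ℕ) ∨ s - (2 * g : ℕ) ≤ y.1 ∨ y.2 ≤ (2 * g : ℕ) ∨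
      s - (2 * g : ℕ) ≤ y.2 := by
    obtain ⟨-, -, b⟩ := hy
    rcases b with b | b
    · rcases (abs_eq (by positivity)).1 b with c | c <;> push_cast at c ⊢ <;> omega
    · rcases (abs_eq (by positivity)).1 b with c | c <;> push_cast at c ⊢ <;> omega
  obtain ⟨w, hw1, hw2, hw3⟩ := first_exit hx' hr hy'
  have hw4 : Reach {e | e ∈ RE (2 * g : ℕ) (s - (2 * g : ℕ)) (2 * g : ℕ) (s - (2 * g : ℕ)) ∧
      e ∉ blk v 2 ∧
      ∀ d ∈ KH s v F, Awy M B (2 * s) v d (src e) ∧ Awy M B (2 * s) v d (tgt e)} x w := by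
    refine hw3.mono ?_
    rintro e ⟨⟨e1, e2, e3⟩, e4⟩
    refine ⟨e4, ?_, fun d hd => ⟨e2 d hd, e3 d hd⟩⟩
    have e5 : e ∈ (↑(blk v (2 * s) \ blk v 2) : Set Edg) := e1
    rw [Finset.mem_coe, Finset.mem_sdiff] at e5
    exact e5.2
  rcases hw2 with h3 | h3 | h3 | h3
  · exact Or.inl ⟨h1, h2, x, hx, w, hw1, h3, hw4⟩
  · exact Or.inr (Or.inl ⟨h1, h2, x, hx, w, hw1, h3, hw4⟩)
  · exact Or.inr (Or.inr (Or.inl ⟨h1, h2, x, hx, w, hw1, h3, hw4⟩))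
  · exact Or.inr (Or.inr (Or.inr ⟨h1, h2, x, hx, w, hw1, h3, hw4⟩))

theorem s_sym4 : S_SYM4 := by
  intro g s M B hg hs
  have hok : Ok ph := fun e => by norm_num
  have key : ∀ v ∈ CtrS s, Pr ph (blk v (128 * s)) (BaseEv M B s v) ≤
      Pr ph (blk v (128 * s)) (ExL g s M B v) +
      (Pr ph (blk v (128 * s)) (fun F => ExL g s M B ((rfx s).ψ v) ((rfx s).mp F)) +
      (Pr ph (blk v (128 * s)) (fun F => ExL g s M B (tps.ψ v) (tps.mp F)) +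
      Pr ph (blk v (128 * s))
        (fun F => ExL g s M B (tps.ψ ((rfy s).ψ v)) (tps.mp ((rfy s).mp F))))) := by
    intro v hv
    refine (Pr_mono hok (B := fun F => ExL g s M B v F ∨
      (ExL g s M B ((rfx s).ψ v) ((rfx s).mp F) ∨ (ExL g s M B (tps.ψ v) (tps.mp F) ∨
        ExL g s M B (tps.ψ ((rfy s).ψ v)) (tps.mp ((rfy s).mp F))))) ?_).trans ?_
    · intro F _ h
      rcases four hg hs hv h with h1 | h1 | h1 | h1
      · exact Or.inl (exl_of h1)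
      · refine Or.inr (Or.inl (exl_of (exs_im (sy_rfx s) ?_ h1)))
        rintro ⟨a, b⟩ h2
        simp only [rfx_ψ] at h2 ⊢
        omega
      · refine Or.inr (Or.inr (Or.inl (exl_of (exs_im (sy_tps s) ?_ h1))))
        rintro ⟨a, b⟩ h2
        simp only [tps_ψ] at h2 ⊢
        exact h2
      · refine Or.inr (Or.inr (Or.inr (exl_of (exs_im (sy_tps s) ?_
          (exs_im (sy_rfy s) (T' := fun w => w.2 = (2 * g : ℕ)) ?_ h1)))))
        · rintro ⟨a, b⟩ h2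
          simp only [tps_ψ] at h2 ⊢
          exact h2
        · rintro ⟨a, b⟩ h2
          simp only [rfy_ψ] at h2 ⊢
          omega
    · refine (Pr_or_le hok _ _ _).trans (add_le_add le_rfl ?_)
      refine (Pr_or_le hok _ _ _).trans (add_le_add le_rfl ?_)
      exact Pr_or_le hok _ _ _
  refine (Finset.sum_le_sum key).trans ?_
  rw [Finset.sum_add_distrib, Finset.sum_add_distrib, Finset.sum_add_distrib,
    sum_im (sy_rfx s) _ (fun v F => ExL g s M B v F),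
    sum_im (sy_tps s) _ (fun v F => ExL g s M B v F),
    sum_im (sy_rfy s) _ (fun v F => ExL g s M B (tps.ψ v) (tps.mp F)),
    sum_im (sy_tps s) _ (fun v F => ExL g s M B v F)]
  apply le_of_eq
  ring

end Pool.Agent.W2helper82.OA.P12
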